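import Mathlib

namespace Pool.Agent.Results.MP_1cb079_al.WCL

open Subgroup
open scoped commutatorElement

/-- If `⁅a, b⁆` commutes with `a` then `⁅a ^ n, b⁆ = ⁅a, b⁆ ^ n`. -/
theorem pow_comm {Q : Type*} [Group Q] (a b : Q) (h : Commute a ⁅a, b⁆) (n : ℕ) :
    ⁅a ^ n, b⁆ = ⁅a, b⁆ ^ n := by
  induction n with
  | zero => simp
  | succ n ih =>
    have h1 : ⁅a ^ (n + 1), b⁆ = a * ⁅a ^ n, b⁆ * a⁻¹ * ⁅a, b⁆ := by
      simp only [commutatorElement_def]
      rw [pow_succ']
      group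
    rw [h1, ih, pow_succ]
    have h2 : a * ⁅a, b⁆ ^ n * a⁻¹ = ⁅a, b⁆ ^ n := by
      rw [(h.pow_right n).eq, mul_assoc, mul_inv_cancel, mul_one]
    rw [h2]

/-- `L k` is the `k`-th term of the lower central series. -/
abbrev L (G : Type*) [Group G] (k : ℕ) : Subgroup G := (⊤ : Subgroup G).lowerCentralSeries k

theorem comm_mem {G : Type*} [Group G] {k : ℕ} {a : G} (ha : a ∈ L G k) (b : G) :
    ⁅a, b⁆ ∈ L G (k + 1) := by
  rw [L, Subgroup.lowerCentralSeries_succ]
  exact commutator_mem_commutator ha (mem_top b)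

theorem mk_central {G : Type*} [Group G] {k : ℕ} {a : G} (ha : a ∈ L G k) (q : G ⧸ L G (k + 1)) :
    Commute ((QuotientGroup.mk a : G ⧸ L G (k + 1))) q := by
  induction q using QuotientGroup.induction_on with
  | H b =>
    have h1 : (QuotientGroup.mk ⁅a, b⁆ : G ⧸ L G (k + 1)) = 1 := by
      rw [QuotientGroup.eq_one_iff]
      exact comm_mem ha b
    have h2 : ⁅(QuotientGroup.mk a : G ⧸ L G (k + 1)), (QuotientGroup.mk b : G ⧸ L G (k + 1))⁆ = 1 := h1
    exact commutatorElement_eq_one_iff_commute.1 h2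

/-- From generators of `L (k+1)` to all of `L (k+1)`. -/
theorem pow_mem_of_key {G : Type*} [Group G] {k n : ℕ}
    (h : ∀ a ∈ L G k, ∀ b : G, ⁅a, b⁆ ^ n ∈ L G (k + 2)) :
    ∀ g ∈ L G (k + 1), g ^ n ∈ L G (k + 2) := by
  intro g hg
  have hg' : g ∈ L G (k + 1) := hg
  rw [L, Subgroup.mem_lowerCentralSeries_succ_iff] at hg
  -- the elements of `L (k+1)` whose `n`-th power is in `L (k+2)` form a subgroup
  have key : g ∈ L G (k + 1) ∧ g ^ n ∈ L G (k + 2) := by
    induction hg using closure_induction with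
    | mem x hx =>
      obtain ⟨p, hp, q, -, rfl⟩ := hx
      exact ⟨comm_mem hp q, h p hp q⟩
    | one => exact ⟨one_mem _, by simp⟩
    | mul x y hx hy ihx ihy =>
      have hx' := ihx (by rw [L, Subgroup.mem_lowerCentralSeries_succ_iff]; exact hx)
      have hy' := ihy (by rw [L, Subgroup.mem_lowerCentralSeries_succ_iff]; exact hy)
      refine ⟨mul_mem hx'.1 hy'.1, ?_⟩
      have hx2 := (QuotientGroup.eq_one_iff (N := L G (k + 2)) (x ^ n)).2 hx'.2
      have hy2 := (QuotientGroup.eq_one_iff (N := L G (k + 2)) (y ^ n)).2 hy'.2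
      rw [← QuotientGroup.eq_one_iff]
      have hc := mk_central hx'.1 (QuotientGroup.mk y : G ⧸ L G (k + 2))
      rw [QuotientGroup.mk_pow, QuotientGroup.mk_mul, hc.mul_pow, ← QuotientGroup.mk_pow,
        ← QuotientGroup.mk_pow, hx2, hy2, mul_one]
    | inv x hx ihx =>
      have hx' := ihx (by rw [L, Subgroup.mem_lowerCentralSeries_succ_iff]; exact hx)
      refine ⟨inv_mem hx'.1, ?_⟩
      rw [inv_pow]
      exact inv_mem hx'.2
  exact key.2

/-- The main computation. -/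
theorem key {G : Type*} [Group G] {S : Set G} (hS : closure S = ⊤) {n : ℕ}
    (hc : ∀ s ∈ S, ∀ b : G, Commute (s ^ n) b) (k : ℕ) :
    ∀ a ∈ L G k, ∀ b : G, ⁅a, b⁆ ^ n ∈ L G (k + 2) := by
  induction k with
  | zero =>
    intro a _ b
    have ha : a ∈ closure S := by rw [hS]; exact mem_top a
    rw [← QuotientGroup.eq_one_iff]
    have hcen : ∀ x y : G, ∀ q : G ⧸ L G (0 + 2),
        Commute (QuotientGroup.mk ⁅x, y⁆ : G ⧸ L G (0 + 2)) q := fun x y q =>
      mk_central (k := 0 + 1) (comm_mem (k := 0) (by simp [L]) y) q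
    induction ha using closure_induction with
    | mem x hx =>
      have h1 : Commute (QuotientGroup.mk x : G ⧸ L G (0 + 2))
          ⁅(QuotientGroup.mk x : G ⧸ L G (0 + 2)), (QuotientGroup.mk b : G ⧸ L G (0 + 2))⁆ :=
        (hcen x b _).symm
      have h2 := pow_comm _ _ h1 n
      have h3 : ⁅x ^ n, b⁆ = 1 := commutatorElement_eq_one_iff_commute.2 (hc x hx b)
      have h4 : (QuotientGroup.mk (⁅x, b⁆ ^ n) : G ⧸ L G (0 + 2)) =
          ⁅(QuotientGroup.mk x : G ⧸ L G (0 + 2)), (QuotientGroup.mk b : G ⧸ L G (0 + 2))⁆ ^ n :=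
        rfl
      have h5 : (QuotientGroup.mk ⁅x ^ n, b⁆ : G ⧸ L G (0 + 2)) =
          ⁅(QuotientGroup.mk x : G ⧸ L G (0 + 2)) ^ n, (QuotientGroup.mk b : G ⧸ L G (0 + 2))⁆ :=
        rfl
      rw [h4, ← h2, ← h5, h3]
      rfl
    | one =>
      rw [commutatorElement_one_left, one_pow]
      rfl
    | mul x y _ _ ihx ihy =>
      have h1 : ⁅x * y, b⁆ = x * ⁅y, b⁆ * x⁻¹ * ⁅x, b⁆ := by
        simp only [commutatorElement_def]; group
      have h2 : (QuotientGroup.mk ⁅x * y, b⁆ : G ⧸ L G (0 + 2)) =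
          QuotientGroup.mk ⁅y, b⁆ * QuotientGroup.mk ⁅x, b⁆ := by
        rw [h1, QuotientGroup.mk_mul, QuotientGroup.mk_mul, QuotientGroup.mk_mul,
          ← (hcen y b _).eq, mul_assoc (QuotientGroup.mk ⁅y, b⁆ : G ⧸ L G (0 + 2)),
          ← QuotientGroup.mk_mul, mul_inv_cancel, QuotientGroup.mk_one, mul_one]
      rw [QuotientGroup.mk_pow, h2, (hcen y b _).mul_pow, ← QuotientGroup.mk_pow,
        ← QuotientGroup.mk_pow, ihx (by simp [L]), ihy (by simp [L]), mul_one]
    | inv x _ ihx =>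
      have h1 : ⁅x⁻¹, b⁆ = x⁻¹ * ⁅x, b⁆⁻¹ * x := by
        simp only [commutatorElement_def]; group
      have h2 : (QuotientGroup.mk ⁅x⁻¹, b⁆ : G ⧸ L G (0 + 2)) =
          (QuotientGroup.mk ⁅x, b⁆)⁻¹ := by
        rw [h1, QuotientGroup.mk_mul, QuotientGroup.mk_mul, QuotientGroup.mk_inv _ ⁅x, b⁆,
          ← ((hcen x b _).inv_left).eq, mul_assoc, ← QuotientGroup.mk_mul, inv_mul_cancel,
          QuotientGroup.mk_one, mul_one]
      rw [QuotientGroup.mk_pow, h2, inv_pow, ← QuotientGroup.mk_pow, ihx (by simp [L]), inv_one]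
  | succ k ih =>
    intro a ha b
    have han : a ^ n ∈ L G (k + 2) := pow_mem_of_key ih a ha
    have hcen : Commute (QuotientGroup.mk a : G ⧸ L G (k + 1 + 2))
        (QuotientGroup.mk ⁅a, b⁆ : G ⧸ L G (k + 1 + 2)) :=
      (mk_central (k := k + 1 + 1) (comm_mem ha b) _).symm
    have h2 := pow_comm (QuotientGroup.mk a : G ⧸ L G (k + 1 + 2))
      (QuotientGroup.mk b : G ⧸ L G (k + 1 + 2)) hcen n
    rw [← QuotientGroup.eq_one_iff]
    have h4 : (QuotientGroup.mk (⁅a, b⁆ ^ n) : G ⧸ L G (k + 1 + 2)) =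
        ⁅(QuotientGroup.mk a : G ⧸ L G (k + 1 + 2)),
          (QuotientGroup.mk b : G ⧸ L G (k + 1 + 2))⁆ ^ n := rfl
    have h5 : (QuotientGroup.mk ⁅a ^ n, b⁆ : G ⧸ L G (k + 1 + 2)) =
        ⁅(QuotientGroup.mk a : G ⧸ L G (k + 1 + 2)) ^ n,
          (QuotientGroup.mk b : G ⧸ L G (k + 1 + 2))⁆ := rfl
    rw [h4, ← h2, ← h5, QuotientGroup.eq_one_iff]
    exact comm_mem han b

/-- Elements of the derived subgroup have bounded order. -/
theorem exists_pow {G : Type*} [Group G] [Group.IsNilpotent G] {S : Set G} (hS : closure S = ⊤)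
    {n : ℕ} (hn : 0 < n) (hc : ∀ s ∈ S, ∀ b : G, Commute (s ^ n) b) :
    ∃ m : ℕ, 0 < m ∧ ∀ g ∈ L G 1, g ^ m = 1 := by
  obtain ⟨c, hcl⟩ := Subgroup.nilpotent_iff_lowerCentralSeries.1 (inferInstance : Group.IsNilpotent G)
  have h1 : ∀ j : ℕ, ∀ g ∈ L G 1, g ^ (n ^ j) ∈ L G (j + 1) := by
    intro j
    induction j with
    | zero => intro g hg; simpa using hg
    | succ j ih =>
      intro g hg
      rw [pow_succ, pow_mul]
      exact pow_mem_of_key (key hS hc j) _ (ih g hg)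
  refine ⟨n ^ c, pow_pos hn c, fun g hg => ?_⟩
  have h2 := h1 c g hg
  have h3 : L G (c + 1) ≤ L G c := Subgroup.lowerCentralSeries_antitone _ (Nat.le_succ c)
  have h4 := h3 h2
  rw [L, hcl, mem_bot] at h4
  exact h4

/-- Every nilpotent group in which, for each `n > 0`, only finitely many elements satisfy
`g ^ n = 1` satisfies the weak cancellation law: for each `n > 0` the map `x ↦ x ^ n` is
finitely-many-to-one. -/
theorem result {G : Type*} [Group G] [Group.IsNilpotent G]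
    (hG : ∀ n : ℕ, 0 < n → {g : G | g ^ n = 1}.Finite) :
    ∀ n : ℕ, 0 < n → ∀ y : G, {x : G | x ^ n = y}.Finite := by
  intro n hn y
  -- the subgroup generated by the solutions
  set S : Set G := {x : G | x ^ n = y} with hSdef
  set H : Subgroup G := closure S with hH
  let S' : Set H := (fun h : H => (h : G)) ⁻¹' S
  have hS' : closure S' = ⊤ := by
    have := closure_closure_coe_preimage (k := S)
    exact this
  have hy : ∀ h : H, Commute y (h : G) := by
    rintro ⟨h, hh⟩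
    change Commute y h
    induction hh using closure_induction with
    | mem x hx =>
      have : x ^ n = y := hx
      rw [← this]
      exact (Commute.refl x).pow_left n
    | one => exact Commute.one_right y
    | mul a b _ _ ha hb => exact ha.mul_right hb
    | inv a _ ha => exact ha.inv_right
  have hc : ∀ s ∈ S', ∀ b : H, Commute (s ^ n) b := by
    intro s hs b
    have h1 : (s : G) ^ n = y := hs
    apply Subtype.ext
    change (s : G) ^ n * (b : G) = (b : G) * (s : G) ^ n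
    rw [h1]
    exact (hy b).eq
  obtain ⟨m, hm, hexp⟩ := exists_pow hS' hn hc
  by_cases hne : S.Nonempty
  · obtain ⟨x₂, hx₂⟩ := hne
    have hfin := hG (n * m) (Nat.mul_pos hn hm)
    refine (hfin.image (fun g => g * x₂)).subset ?_
    intro x₁ hx₁
    refine ⟨x₁ * x₂⁻¹, ?_, by simp⟩
    change (x₁ * x₂⁻¹) ^ (n * m) = 1
    let u₁ : H := ⟨x₁, subset_closure hx₁⟩
    let u₂ : H := ⟨x₂, subset_closure hx₂⟩
    have h12 : u₁ ^ n = u₂ ^ n := by
      apply Subtype.ext
      change x₁ ^ n = x₂ ^ n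
      rw [show x₁ ^ n = y from hx₁, show x₂ ^ n = y from hx₂]
    have hmem : (u₁ * u₂⁻¹) ^ n ∈ L H 1 := by
      change (u₁ * u₂⁻¹) ^ n ∈ commutator H
      rw [← Abelianization.ker_of H, MonoidHom.mem_ker, map_pow, map_mul, map_inv, mul_pow,
        inv_pow, ← map_pow, ← map_pow, h12, mul_inv_cancel]
    have h2 := hexp _ hmem
    rw [← pow_mul] at h2
    have h3 := congrArg (fun h : H => (h : G)) h2
    simpa using h3
  · rw [Set.not_nonempty_iff_eq_empty] at hne
    rw [hne]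
    exact Set.finite_empty

end Pool.Agent.Results.MP_1cb079_al.WCL
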